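import Pool.Agent.Lib.MP_acafa7_al.MS.Iface1

/-! Module TubeP (MP_acafa7_al, stage 1): the parity argument of the tube lemma.
(helper98) -/

namespace MSG.H98

open MSG Classical

theorem sumE_app2 {V : Type} (η : V → V → ZMod 2) (u : List V) (x : V) (v : List V) :
    sumE η (u ++ x :: v) = sumE η (u ++ [x]) + sumE η (x :: v) := by
  induction u with
  | nil => simp [sumE]
  | cons b u ih =>
    cases u with
    | nil => simp [sumE]
    | cons c u =>
      simp only [List.cons_append, sumE] at ih ⊢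
      rw [ih]; ring

theorem zz2 (x : ZMod 2) : x + x = 0 := CharTwo.add_self_eq_zero x

theorem sumE_cat {V : Type} (η : V → V → ZMod 2) (l m : List V) (x : V)
    (hl : l.getLast? = some x) (hm : m.head? = some x) :
    sumE η (cat l m) = sumE η l + sumE η m := by
  obtain ⟨u, rfl⟩ : ∃ u, l = u ++ [x] := by
    rw [List.getLast?_eq_some_iff] at hl
    exact hl
  cases m with
  | nil => simp at hm
  | cons y v =>
    simp only [List.head?_cons, Option.some.injEq] at hm
    subst hm
    simp only [cat, List.tail_cons, List.append_assoc, List.cons_append, List.nil_append]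
    exact sumE_app2 η u y v

theorem sumE_pot {V : Type} {G : SimpleGraph V} (η : V → V → ZMod 2) (p : V → ZMod 2) (S : Set V)
    (h : ∀ a b, a ∈ S → b ∈ S → G.Adj a b → η a b = p a + p b) (l : List V) :
    ∀ x y : V, IsW G x y l → (∀ v ∈ l, v ∈ S) → sumE η l = p x + p y := by
  induction l with
  | nil =>
    intro x y hw _
    have := hw.first
    simp at this
  | cons a l ih =>
    intro x y hw hS
    have h1 := hw.first
    simp only [List.head?_cons, Option.some.injEq] at h1
    subst h1
    cases l with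
    | nil =>
      have h2 := hw.last
      simp only [List.getLast?_singleton, Option.some.injEq] at h2
      subst h2
      simp only [sumE]
      rw [zz2]
    | cons b l =>
      have hc := hw.chain
      rw [List.isChain_cons_cons] at hc
      have hl := hw.last
      rw [List.getLast?_cons_cons] at hl
      have := ih b y ⟨hc.2, by simp, hl⟩ (fun v hv => hS v (List.mem_cons_of_mem _ hv))
      simp only [sumE]
      rw [this, h a b (hS a (by simp)) (hS b (by simp)) hc.1]
      have h3 := zz2 (p b)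
      linear_combination h3

theorem mem_first {V : Type} {G : SimpleGraph V} {x y : V} {l : List V} (h : IsW G x y l) :
    x ∈ l := by
  have := h.first
  exact List.mem_of_mem_head? this

theorem mem_last {V : Type} {G : SimpleGraph V} {x y : V} {l : List V} (h : IsW G x y l) :
    y ∈ l := by
  have := h.last
  exact List.mem_of_getLast? this

theorem tubep : TubePStatement := by
  intro V G L₀ L₁ L₂ hN
  have lam2 : ∀ x, lam L₀ L₂ x = 2 → x ∈ L₂ := by
    intro x hx
    by_contra h
    unfold lam at hx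
    rw [if_neg h] at hx
    split_ifs at hx <;> simp at hx
  have lam2' : ∀ x, x ∈ L₂ → lam L₀ L₂ x = 2 := by
    intro x hx
    unfold lam
    rw [if_pos hx]
  have lam0 : ∀ x, lam L₀ L₂ x = 0 → x ∈ L₀ := by
    intro x hx
    unfold lam at hx
    by_contra h
    rw [if_neg h] at hx
    split_ifs at hx
  have lam1 : ∀ x, x ∈ L₀ ∪ L₁ ∪ L₂ → lam L₀ L₂ x = 1 → x ∈ L₁ := by
    intro x hx hl
    unfold lam at hl
    rcases hx with (h | h) | h
    · exfalso
      rw [if_pos h] at hl
      split_ifs at hl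
      simp at hl
    · exact h
    · rw [if_pos h] at hl; simp at hl
  have lamc : ∀ x, lam L₀ L₂ x = 0 ∨ lam L₀ L₂ x = 1 ∨ lam L₀ L₂ x = 2 := by
    intro x
    unfold lam
    split_ifs <;> simp
  have lam0' : ∀ x, x ∈ L₀ → lam L₀ L₂ x ≠ 1 := by
    intro x hx
    unfold lam
    split_ifs <;> simp
  have three : ∀ x y z, x ∈ L₀ ∪ L₁ ∪ L₂ → y ∈ L₀ ∪ L₁ ∪ L₂ → z ∈ L₀ ∪ L₁ ∪ L₂ →
      G.Adj x y → G.Adj y z → G.Adj x z → lam L₀ L₂ x = 0 → lam L₀ L₂ y = 1 →
      lam L₀ L₂ z = 2 → False := by
    intro x y z hx hy hz hxy hyz hxz h0 h1 h2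
    exact hN ⟨x, lam0 x h0, y, lam1 y hy h1, z, lam2 z h2, Or.inr hxy, Or.inr hyz, Or.inr hxz⟩
  refine ⟨?_, ?_, ?_⟩
  · intro x y
    unfold theta
    congr 1
    apply propext
    constructor
    · rintro ⟨⟨h1, h2⟩, h3⟩
      exact ⟨⟨h2, h1⟩, by tauto⟩
    · rintro ⟨⟨h1, h2⟩, h3⟩
      exact ⟨⟨h2, h1⟩, by tauto⟩
  · intro x y z hx hy hz hxy hyz hxz
    unfold theta
    simp only [hx, hy, hz, true_and]
    have t1 := three x y z hx hy hz hxy hyz hxz
    have t2 := three x z y hx hz hy hxz hyz.symm hxy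
    have t3 := three y x z hy hx hz hxy.symm hxz hyz
    have t4 := three y z x hy hz hx hyz hxz.symm hxy.symm
    have t5 := three z x y hz hx hy hxz.symm hxy hyz.symm
    have t6 := three z y x hz hy hx hyz.symm hxy.symm hxz.symm
    rcases lamc x with h1 | h1 | h1 <;> rcases lamc y with h2 | h2 | h2 <;>
      rcases lamc z with h3 | h3 | h3 <;> simp [h1, h2, h3] at t1 t2 t3 t4 t5 t6 ⊢ <;>
      first | exact zz2 1 | skip
  · intro y₀ y₁ y₂ π₀ π₁ π₂ w0 w1 w2 h0 h1 h2
    have e1 : lam L₀ L₂ y₁ = 0 := by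
      have a1 := h0 y₁ (mem_last w0)
      have a2 := h1 y₁ (mem_first w1)
      have a3 : y₁ ∉ L₂ := fun h => hN ⟨y₁, a1, y₁, a2, y₁, h, Or.inl rfl, Or.inl rfl, Or.inl rfl⟩
      unfold lam
      rw [if_neg a3, if_pos a1]
    have e2 : lam L₀ L₂ y₂ = 2 := lam2' y₂ (h2 y₂ (mem_first w2))
    have s0 : sumE (theta L₀ L₁ L₂) π₀ = 0 := by
      have := sumE_pot (G := G) (theta L₀ L₁ L₂) (fun _ => 0) L₀ (by
        intro a b ha hb _
        unfold theta
        rw [if_neg]
        · simp
        · rintro ⟨_, h | h⟩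
          · exact lam0' b hb h.2
          · exact lam0' a ha h.1) π₀ y₀ y₁ w0 h0
      rw [this]; simp
    have s2 : sumE (theta L₀ L₁ L₂) π₂ = 0 := by
      have := sumE_pot (G := G) (theta L₀ L₁ L₂) (fun _ => 0) L₂ (by
        intro a b ha hb _
        unfold theta
        rw [if_neg]
        · simp
        · rw [lam2' a ha, lam2' b hb]; simp) π₂ y₂ y₀ w2 h2
      rw [this]; simp
    have s1 : sumE (theta L₀ L₁ L₂) π₁ = 1 := by
      have := sumE_pot (G := G) (theta L₀ L₁ L₂) (fun v => if lam L₀ L₂ v = 0 then 1 else 0) L₁ (by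
        intro a b ha hb hab
        have n1 : lam L₀ L₂ a = 0 → lam L₀ L₂ b = 2 → False := fun k1 k2 =>
          hN ⟨a, lam0 a k1, a, ha, b, lam2 b k2, Or.inl rfl, Or.inr hab, Or.inr hab⟩
        have n2 : lam L₀ L₂ b = 0 → lam L₀ L₂ a = 2 → False := fun k1 k2 =>
          hN ⟨b, lam0 b k1, b, hb, a, lam2 a k2, Or.inl rfl, Or.inr hab.symm, Or.inr hab.symm⟩
        have ha' : a ∈ L₀ ∪ L₁ ∪ L₂ := Or.inl (Or.inr ha)
        have hb' : b ∈ L₀ ∪ L₁ ∪ L₂ := Or.inl (Or.inr hb)
        unfold theta
        simp only [ha', hb', true_and]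
        rcases lamc a with k1 | k1 | k1 <;> rcases lamc b with k2 | k2 | k2 <;>
          simp [k1, k2] at n1 n2 ⊢ <;> first | exact (zz2 1).symm | skip) π₁ y₁ y₂ w1 h1
      rw [this]
      simp [e1, e2]
    have c1 : (cat π₀ π₁).getLast? = some y₂ := by
      obtain ⟨u, hu⟩ : ∃ u, π₀ = u ++ [y₁] := by
        have := w0.last
        rw [List.getLast?_eq_some_iff] at this
        exact this
      have hf := w1.first
      have hl := w1.last
      cases π₁ with
      | nil => simp at hf
      | cons c v =>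
        simp only [List.head?_cons, Option.some.injEq] at hf
        subst hf
        subst hu
        have : cat (u ++ [c]) (c :: v) = u ++ (c :: v) := by simp [cat]
        rw [this, List.getLast?_append, hl]
        simp
    rw [sumE_cat _ _ _ y₂ c1 w2.first, sumE_cat _ _ _ y₁ w0.last w1.first, s0, s1, s2]
    simp

end MSG.H98
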