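import Pool.Agent.Lib.MP_acafa7_al.MS.Iface1

/-! Module TubeW (MP_acafa7_al, stage 1): weights of homotopies when the cocycle is a coboundary.
(helper98) -/

namespace MSG.H98

open MSG

theorem sumE_app {V : Type} (η : V → V → ZMod 2) (u : List V) (x : V) (v : List V) :
    sumE η (u ++ x :: v) = sumE η (u ++ [x]) + sumE η (x :: v) := by
  induction u with
  | nil => simp [sumE]
  | cons b u ih =>
    cases u with
    | nil => simp [sumE]
    | cons c u =>
      simp only [List.cons_append, sumE] at ih ⊢
      rw [ih]; ring

theorem z2 (x : ZMod 2) : x + x = 0 := CharTwo.add_self_eq_zero x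

theorem tubew : TubeWStatement := by
  intro V G L η ω hη hω l l' e hl hh
  induction hh with
  | refl l => rw [z2]
  | @step l l' l'' e e' hs _ ih =>
    have key : (∀ v ∈ l', v ∈ L) ∧ e = sumE η l + sumE η l' := by
      cases hs with
      | ins u v x y hxy hy =>
        refine ⟨?_, ?_⟩
        · intro w hw
          simp only [List.mem_append, List.mem_cons] at hw hl
          rcases hw with h | h | h | h | h
          · exact hl w (Or.inl h)
          · exact hl w (Or.inr (Or.inl h))
          · rw [h]; exact hy
          · exact hl w (Or.inr (Or.inl h))
          · exact hl w (Or.inr (Or.inr h))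
        · rw [sumE_app η u x v, sumE_app η u x (y :: x :: v)]
          simp only [sumE]
          rw [hη y x]
          have h1 := z2 (sumE η (u ++ [x]))
          have h2 := z2 (η x y)
          have h3 := z2 (sumE η (x :: v))
          linear_combination -h1 - h2 - h3
      | del u v x y hxy =>
        refine ⟨?_, ?_⟩
        · intro w hw
          simp only [List.mem_append, List.mem_cons] at hw hl
          rcases hw with h | h | h
          · exact hl w (Or.inl h)
          · exact hl w (Or.inr (Or.inl h))
          · exact hl w (Or.inr (Or.inr (Or.inr (Or.inr h))))
        · rw [sumE_app η u x v, sumE_app η u x (y :: x :: v)]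
          simp only [sumE]
          rw [hη y x]
          have h1 := z2 (sumE η (u ++ [x]))
          have h2 := z2 (η x y)
          have h3 := z2 (sumE η (x :: v))
          linear_combination -h1 - h2 - h3
      | exp u v x y z hxy hyz hxz hy =>
        refine ⟨?_, ?_⟩
        · intro w hw
          simp only [List.mem_append, List.mem_cons] at hw hl
          rcases hw with h | h | h | h | h
          · exact hl w (Or.inl h)
          · exact hl w (Or.inr (Or.inl h))
          · rw [h]; exact hy
          · exact hl w (Or.inr (Or.inr (Or.inl h)))
          · exact hl w (Or.inr (Or.inr (Or.inr h)))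
        · rw [hω x y z (hl x (by simp)) hy (hl z (by simp)) hxy hyz hxz,
            sumE_app η u x (z :: v), sumE_app η u x (y :: z :: v)]
          simp only [sumE]
          have h1 := z2 (sumE η (u ++ [x]))
          have h3 := z2 (sumE η (z :: v))
          linear_combination -h1 - h3
      | con u v x y z hxy hyz hxz =>
        refine ⟨?_, ?_⟩
        · intro w hw
          simp only [List.mem_append, List.mem_cons] at hw hl
          rcases hw with h | h | h | h
          · exact hl w (Or.inl h)
          · exact hl w (Or.inr (Or.inl h))
          · exact hl w (Or.inr (Or.inr (Or.inr (Or.inl h))))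
          · exact hl w (Or.inr (Or.inr (Or.inr (Or.inr h))))
        · rw [hω x y z (hl x (by simp)) (hl y (by simp)) (hl z (by simp)) hxy hyz hxz,
            sumE_app η u x (z :: v), sumE_app η u x (y :: z :: v)]
          simp only [sumE]
          have h1 := z2 (sumE η (u ++ [x]))
          have h3 := z2 (sumE η (z :: v))
          linear_combination -h1 - h3
    obtain ⟨k1, k2⟩ := key
    have k3 := ih k1
    rw [k2, k3]
    have h1 := z2 (sumE η l')
    linear_combination h1

end MSG.H98
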